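import Pool.Agent.N436.DF.Stm3

/-!
# Project DF: closed sets of small potential, the first two facts (helper545 for helper436)
-/

namespace Pool.Agent.N545.DF

open Pool.Agent.N436.DF Finset

theorem r_zero {V : Type} [DecidableEq V] {H : Hub V} (ok : Ok P13 H) {S Z : Finset V}
    (h : ¬ RB H S Z) : ∀ x ∈ Z, ∀ z ∈ S \ Z, H.r x z = 0 := by
  intro x hx z hz
  rcases ok.r01 x z with h0 | h1
  · exact h0
  · exact absurd ⟨x, hx, z, hz, h1⟩ h

theorem sv_eq {V : Type} {H : Hub V} {f : V → Bool} {s : V → V → ℤ} {x z : V}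
    (hr : H.r x z = 0) (hs : 0 ≤ s x z) :
    sv H f s x z = if f x = true then 2 * H.m x z + 3 * min (H.m x z) (s x z)
      else 5 * min (H.m x z) (s x z) := by
  unfold sv
  rw [if_pos (by rw [hr]; exact hs), hr]
  ring

theorem sv_nn {V : Type} [DecidableEq V] {H : Hub V} (ok : Ok P13 H) {f : V → Bool}
    {s : V → V → ℤ} {x z : V} (hr : H.r x z = 0) (hs : 0 ≤ s x z) : 0 ≤ sv H f s x z := by
  rw [sv_eq hr hs]
  have hm := ok.m_nn x z
  have h1 : 0 ≤ min (H.m x z) (s x z) := le_min hm hs
  split_ifs <;> linarith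

theorem core {V : Type} [DecidableEq V] (hb : S3_base) (hk : S3_kill) {H : Hub V}
    {S Z : Finset V} {f : V → Bool} {p s : V → V → ℤ} (mc : MinCex P13 H S) (hZ : Z ⊆ S)
    (hne : Z.Nonempty) (hcl : ¬ RB H S Z) (h5 : hp H Z ≤ 5) (hc : ColBy H Z f p)
    (hs : ∀ x z, 0 ≤ s x z)
    (hcap : ∀ x ∈ Z, load H Z f p x + ∑ z ∈ S \ Z, s x z ≤ H.c (f x) x) :
    hp H S + ∑ x ∈ Z, ∑ z ∈ S \ Z, sv H f s x z ≤ hp H Z - 3 := by
  obtain ⟨C, hC, hCn, hle⟩ := hk V H S Z f p s mc hZ hne hc hs hcap
  have hr := r_zero mc.ok hcl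
  obtain ⟨-, -, -, -, hB⟩ := hb V H mc.ok
  obtain ⟨-, hB2⟩ := hB S mc
  by_cases hCe : C = S \ Z
  · rw [hCe, Finset.union_sdiff_of_subset hZ] at hle
    exact hle
  · exfalso
    have hsub : Z ∪ C ⊆ S := Finset.union_subset hZ (hC.trans Finset.sdiff_subset)
    have hneS : Z ∪ C ≠ S := by
      intro he
      apply hCe
      apply Finset.Subset.antisymm hC
      intro y hy
      rw [Finset.mem_sdiff] at hy
      have : y ∈ Z ∪ C := by rw [he]; exact hy.1
      rcases Finset.mem_union.1 this with h | h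
      · exact absurd h hy.2
      · exact h
    have h3 := (hB2 (Z ∪ C) hsub (hne.mono Finset.subset_union_left) hneS).2
    have hnn : 0 ≤ ∑ x ∈ Z, ∑ z ∈ C, sv H f s x z :=
      Finset.sum_nonneg (fun x hx => Finset.sum_nonneg (fun z hz =>
        sv_nn mc.ok (hr x hx z (hC hz)) (hs x z)))
    linarith

theorem clA (hb : S3_base) (hk : S3_kill) : S3_clA := by
  intro V _ H S Z f p mc hZ hne _ hcl h5 hc
  have hr := r_zero mc.ok hcl
  obtain ⟨-, -, -, -, hB⟩ := hb V H mc.ok
  obtain ⟨hB1, -⟩ := hB S mc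
  have hS2 : -2 ≤ hp H S := hB1 S (Finset.Subset.refl S) (hne.mono hZ)
  refine ⟨?_, ?_⟩
  · intro x hx q hq hm
    by_contra hlt
    rw [not_le] at hlt
    set s : V → V → ℤ := fun x' z' => if x' = x ∧ z' = q then 1 else 0 with hsdef
    have hs : ∀ x z, 0 ≤ s x z := by
      intro a b
      simp only [hsdef]
      split_ifs <;> norm_num
    have hcap : ∀ x' ∈ Z, load H Z f p x' + ∑ z ∈ S \ Z, s x' z ≤ H.c (f x') x' := by
      intro x' hx'
      by_cases hxx : x' = x
      · subst hxx
        have : ∑ z ∈ S \ Z, s x' z = 1 := by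
          simp only [hsdef, true_and]
          rw [Finset.sum_ite_eq', if_pos hq]
        rw [this]
        linarith
      · have : ∑ z ∈ S \ Z, s x' z = 0 := by
          apply Finset.sum_eq_zero
          intro z _
          simp only [hsdef]
          rw [if_neg (fun h => hxx h.1)]
        rw [this, add_zero]
        exact hc.cap x' hx'
    have h1 := core hb hk mc hZ hne hcl h5 hc hs hcap
    have h2 : sv H f s x q ≤ ∑ x ∈ Z, ∑ z ∈ S \ Z, sv H f s x z := by
      have h3 : ∑ z ∈ S \ Z, sv H f s x z ≤ ∑ x ∈ Z, ∑ z ∈ S \ Z, sv H f s x z :=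
        Finset.single_le_sum (f := fun x => ∑ z ∈ S \ Z, sv H f s x z)
          (fun x hx => Finset.sum_nonneg (fun z hz =>
            sv_nn mc.ok (hr x hx z hz) (hs x z))) hx
      have h4 : sv H f s x q ≤ ∑ z ∈ S \ Z, sv H f s x z :=
        Finset.single_le_sum (f := fun z => sv H f s x z)
          (fun z hz => sv_nn mc.ok (hr x hx z hz) (hs x z)) hq
      linarith
    have h5' : 5 ≤ sv H f s x q := by
      rw [sv_eq (hr x hx q hq) (hs x q)]
      have hsq : s x q = 1 := by simp [hsdef]
      rw [hsq, min_eq_right hm]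
      split_ifs <;> linarith
    linarith
  · have hs : ∀ x z : V, (0 : ℤ) ≤ (fun _ _ => (0 : ℤ)) x z := fun _ _ => le_refl _
    have hcap : ∀ x ∈ Z, load H Z f p x + ∑ z ∈ S \ Z, (fun _ _ => (0 : ℤ)) x z
        ≤ H.c (f x) x := by
      intro x hx
      simp only [Finset.sum_const_zero, add_zero]
      exact hc.cap x hx
    have h1 := core (s := fun _ _ => (0 : ℤ)) hb hk mc hZ hne hcl h5 hc (fun _ _ => le_refl _)
      hcap
    have h2 : ∑ x ∈ Z, ∑ z ∈ S \ Z, sv H f (fun _ _ => (0 : ℤ)) x z
        = 2 * n1 H Z (S \ Z) f := by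
      unfold n1
      rw [Finset.sum_filter, Finset.mul_sum]
      apply Finset.sum_congr rfl
      intro x hx
      by_cases hfx : f x = true
      · rw [if_pos hfx, Finset.mul_sum]
        apply Finset.sum_congr rfl
        intro z hz
        rw [sv_eq (hr x hx z hz) (le_refl _), if_pos hfx, min_eq_right (mc.ok.m_nn x z)]
        ring
      · rw [if_neg hfx, mul_zero]
        apply Finset.sum_eq_zero
        intro z hz
        rw [sv_eq (hr x hx z hz) (le_refl _), if_neg hfx, min_eq_right (mc.ok.m_nn x z)]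
        ring
    linarith

theorem cost_two {V : Type} [DecidableEq V] (x1 x2 : V) (C : Finset V) :
    cost (fun i v => if i = false ∧ (v = x1 ∨ v = x2) then (1 : ℤ) else 0) C
      = 3 * ((C.filter (fun v => v = x1 ∨ v = x2)).card : ℤ) := by
  unfold cost
  have : ∀ z : V, (5 * (if (true = false) ∧ (z = x1 ∨ z = x2) then (1 : ℤ) else 0)
      + 3 * (if (false = false) ∧ (z = x1 ∨ z = x2) then (1 : ℤ) else 0))
      = 3 * (if (z = x1 ∨ z = x2) then (1 : ℤ) else 0) := by
    intro z
    simp
  rw [Finset.sum_congr rfl (fun z _ => this z), ← Finset.mul_sum, Finset.sum_boole]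

theorem cl4 (hb : S3_base) (hst : S3_state) (hA : S3_clA) : S3_cl4 := by
  intro V _ H S Z mc hRB hZ hne hnS hcl h4
  have hr := r_zero mc.ok hcl
  obtain ⟨-, hadd, -, -, hB⟩ := hb V H mc.ok
  obtain ⟨hB1, hB2⟩ := hB S mc
  have hS2 : -2 ≤ hp H S := hB1 S (Finset.Subset.refl S) (hne.mono hZ)
  by_contra hno
  -- sizes
  set W : V → ℤ := fun x => ∑ q ∈ S \ Z, H.m x q with hW
  have hWnn : ∀ x, 0 ≤ W x := fun x => Finset.sum_nonneg (fun q _ => mc.ok.m_nn x q)
  have hrr : rr H Z (S \ Z) = 0 := by
    unfold rr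
    exact Finset.sum_eq_zero (fun x hx => Finset.sum_eq_zero (fun z hz => hr x hx z hz))
  have hU := hadd Z (S \ Z) Finset.disjoint_sdiff
  rw [Finset.union_sdiff_of_subset hZ, hrr] at hU
  have hcne : (S \ Z).Nonempty := by
    rw [Finset.sdiff_nonempty]
    intro h
    exact hnS (Finset.Subset.antisymm hZ h)
  have hcS : S \ Z ≠ S := by
    intro h
    obtain ⟨x, hx⟩ := hne
    have : x ∈ S \ Z := by rw [h]; exact hZ hx
    exact (Finset.mem_sdiff.1 this).2 hx
  have hco := (hB2 (S \ Z) Finset.sdiff_subset hcne hcS).1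
  have he : 2 ≤ ∑ x ∈ Z, W x := by
    have : mm H Z (S \ Z) = ∑ x ∈ Z, W x := rfl
    rw [← this]
    by_contra hlt
    have : mm H Z (S \ Z) ≤ 1 := by omega
    linarith
  have hsub3 : ∀ C, C ⊆ Z → C.Nonempty → 3 ≤ hp H C := by
    intro C hC hCn
    have hCS : C ≠ S := by
      intro h
      exact hnS (Finset.Subset.antisymm hZ (h ▸ hC))
    exact (hB2 C (hC.trans hZ) hCn hCS).2
  -- colourings have at most one unit in the colour 1
  have hn1 : ∀ f p, ColBy H Z f p → ∑ x ∈ Z with f x = true, W x ≤ 1 := by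
    intro f p hc
    have h1 := (hA V H S Z f p mc hZ hne hnS hcl (by rw [h4]; norm_num) hc).2
    have h2 : n1 H Z (S \ Z) f = ∑ x ∈ Z with f x = true, W x := rfl
    rw [h2, h4] at h1
    by_contra hlt
    rw [not_le] at hlt
    have : (2 : ℤ) ≤ ∑ x ∈ Z with f x = true, W x := by omega
    linarith
  -- forced colour 1
  have hforce : ∀ f p (l : Bool → V → ℤ) x, ColBy H Z f p → x ∈ Z → 1 ≤ W x →
      l false x = 1 → load H Z f p x + l (f x) x ≤ H.c (f x) x → f x = true := by
    intro f p l x hc hx hWx hl hle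
    by_contra hf
    have hf' : f x = false := by
      cases h : f x
      · rfl
      · exact absurd h hf
    obtain ⟨q, hq, hmq⟩ : ∃ q ∈ S \ Z, 1 ≤ H.m x q := by
      by_contra hcon
      have h0 : W x ≤ 0 := by
        apply Finset.sum_nonpos
        intro q hq
        by_contra hq'
        exact hcon ⟨q, hq, by omega⟩
      linarith
    have h1 := (hA V H S Z f p mc hZ hne hnS hcl (by rw [h4]; norm_num) hc).1 x hx q hq hmq
    rw [hf'] at h1 hle
    rw [hl] at hle
    linarith
  -- two (or one) boundary vertices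
  have key : ∀ x1 ∈ Z, ∀ x2 ∈ Z, 1 ≤ W x1 → 1 ≤ W x2 →
      (x1 = x2 → 2 ≤ W x1) → False := by
    intro x1 hx1 x2 hx2 hW1 hW2 heq
    obtain ⟨f, p, hc, hcap⟩ := hst V H S Z
      (fun i v => if i = false ∧ (v = x1 ∨ v = x2) then (1 : ℤ) else 0) mc hZ hnS
      (by
        intro i x
        split_ifs <;> norm_num)
      (by
        intro C hC hCn
        rw [cost_two]
        have h3 := hsub3 C hC hCn
        by_cases hboth : x1 ∈ C ∧ x2 ∈ C ∧ x1 ≠ x2
        · have hcard : (C.filter (fun v => v = x1 ∨ v = x2)).card ≤ 2 := by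
            have : C.filter (fun v => v = x1 ∨ v = x2) ⊆ {x1, x2} := by
              intro v hv
              rw [Finset.mem_filter] at hv
              simp only [Finset.mem_insert, Finset.mem_singleton]
              exact hv.2
            exact (Finset.card_le_card this).trans Finset.card_le_two
          have hcard' : ((C.filter (fun v => v = x1 ∨ v = x2)).card : ℤ) ≤ 2 := by
            exact_mod_cast hcard
          have h4' : 4 ≤ hp H C := by
            by_contra hlt
            rw [not_le] at hlt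
            have h3' : hp H C = 3 := by omega
            by_cases hrb : RB H S C
            · have := hRB C (hC.trans hZ) hrb
              linarith
            · apply hno
              refine ⟨C, hC, mc, hC.trans hZ, hCn, ?_, hrb, h3'⟩
              intro h
              exact hnS (Finset.Subset.antisymm hZ (h ▸ hC))
          linarith
        · have hcard : (C.filter (fun v => v = x1 ∨ v = x2)).card ≤ 1 := by
            rw [Finset.card_le_one]
            intro a ha b hb'
            rw [Finset.mem_filter] at ha hb'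
            by_contra hab
            apply hboth
            rcases ha.2 with rfl | rfl
            · rcases hb'.2 with rfl | rfl
              · exact absurd rfl hab
              · exact ⟨ha.1, hb'.1, hab⟩
            · rcases hb'.2 with rfl | rfl
              · exact ⟨hb'.1, ha.1, fun h => hab h.symm⟩
              · exact absurd rfl hab
          have hcard' : ((C.filter (fun v => v = x1 ∨ v = x2)).card : ℤ) ≤ 1 := by
            exact_mod_cast hcard
          linarith)
    have hf1 : f x1 = true := hforce f p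
      (fun i v => if i = false ∧ (v = x1 ∨ v = x2) then (1 : ℤ) else 0) x1 hc hx1 hW1
      (if_pos ⟨rfl, Or.inl rfl⟩) (hcap x1 hx1).1
    have hf2 : f x2 = true := hforce f p
      (fun i v => if i = false ∧ (v = x1 ∨ v = x2) then (1 : ℤ) else 0) x2 hc hx2 hW2
      (if_pos ⟨rfl, Or.inr rfl⟩) (hcap x2 hx2).1
    have hn := hn1 f p hc
    by_cases h12 : x1 = x2
    · have h2 := heq h12
      have : W x1 ≤ ∑ x ∈ Z with f x = true, W x :=
        Finset.single_le_sum (f := W) (fun x _ => hWnn x)
          (Finset.mem_filter.2 ⟨hx1, hf1⟩)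
      linarith
    · have hsub : ({x1, x2} : Finset V) ⊆ Z.filter (fun x => f x = true) := by
        intro v hv
        simp only [Finset.mem_insert, Finset.mem_singleton] at hv
        rcases hv with rfl | rfl
        · exact Finset.mem_filter.2 ⟨hx1, hf1⟩
        · exact Finset.mem_filter.2 ⟨hx2, hf2⟩
      have h1 : ∑ x ∈ ({x1, x2} : Finset V), W x ≤ ∑ x ∈ Z with f x = true, W x :=
        Finset.sum_le_sum_of_subset_of_nonneg hsub (fun x _ _ => hWnn x)
      rw [Finset.sum_pair h12] at h1
      linarith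
  -- choose them
  by_cases hbig : ∃ x ∈ Z, 2 ≤ W x
  · obtain ⟨x, hx, h2⟩ := hbig
    exact key x hx x hx (by linarith) (by linarith) (fun _ => h2)
  · have hle1 : ∀ x ∈ Z, W x ≤ 1 := by
      intro x hx
      by_contra h
      exact hbig ⟨x, hx, by omega⟩
    obtain ⟨x1, hx1, hW1⟩ : ∃ x ∈ Z, 1 ≤ W x := by
      by_contra hcon
      have : ∑ x ∈ Z, W x ≤ 0 := Finset.sum_nonpos (fun x hx => by
        by_contra h
        exact hcon ⟨x, hx, by omega⟩)
      linarith
    have hsplit : W x1 + ∑ x ∈ Z.erase x1, W x = ∑ x ∈ Z, W x :=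
      Finset.add_sum_erase Z W hx1
    have hle := hle1 x1 hx1
    obtain ⟨x2, hx2, hW2⟩ : ∃ x ∈ Z.erase x1, 1 ≤ W x := by
      by_contra hcon
      have : ∑ x ∈ Z.erase x1, W x ≤ 0 := Finset.sum_nonpos (fun x hx => by
        by_contra h
        exact hcon ⟨x, hx, by omega⟩)
      linarith
    rw [Finset.mem_erase] at hx2
    exact key x1 hx1 x2 hx2.2 hW1 hW2 (fun h => absurd h.symm hx2.1)

end Pool.Agent.N545.DF
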